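import Pool.Agent.Q39.WR.Defs

set_option autoImplicit false

/-!
# The Waring rank of a generic arrangement grows linearly with its size
-/

namespace Pool.Agent.Q39.WR

open MvPolynomial

variable {n : ℕ}

/-! ### proofs -/

/-- the pairing -/
noncomputable def pr (a v : Fin (n + 1) → ℂ) : ℂ := ∑ j, a j * v j

/-- the derivation in direction `v` -/
noncomputable def dv (v : Fin (n + 1) → ℂ) :
    Derivation ℂ (MvPolynomial (Fin (n + 1)) ℂ) (MvPolynomial (Fin (n + 1)) ℂ) :=
  mkDerivation ℂ fun j => C (v j)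

lemma dv_linearForm (v a : Fin (n + 1) → ℂ) : dv v (linearForm a) = C (pr a v) := by
  rw [linearForm, map_sum, pr, map_sum]
  refine Finset.sum_congr rfl fun j _ => ?_
  rw [Derivation.leibniz]
  simp [dv]

lemma linearForm_ne_zero {a : Fin (n + 1) → ℂ} (h : a ≠ 0) : linearForm a ≠ 0 := by
  intro h0
  apply h
  funext j
  have := congrArg (dv (Pi.single j 1)) h0
  rw [dv_linearForm, map_zero] at this
  have h1 : pr a (Pi.single j 1) = a j := by simp [pr, Pi.single_apply]
  rw [h1] at this
  simpa using this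

/-- vectors that separate two forms -/
lemma exists_sep {a b : Fin (n + 1) → ℂ} (h : ∀ c : ℂ, a ≠ c • b) :
    ∃ v, pr b v = 0 ∧ pr a v ≠ 0 := by
  by_contra hcon
  push Not at hcon
  by_cases hb : b = 0
  · have ha : a = 0 := by
      funext j
      have := hcon (Pi.single j 1) (by simp [pr, hb])
      simpa [pr, Pi.single_apply] using this
    exact h 0 (by rw [ha, zero_smul])
  · obtain ⟨k, hk⟩ : ∃ k, b k ≠ 0 := by
      by_contra hk
      push Not at hk
      exact hb (funext hk)
    apply h (a k / b k)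
    funext j
    have := hcon (Pi.single j (b k) - Pi.single k (b j)) (by
      simp [pr, Pi.single_apply, mul_sub, Finset.sum_sub_distrib]
      ring)
    have h2 : a j * b k - a k * b j = 0 := by
      simpa [pr, Pi.single_apply, mul_sub, Finset.sum_sub_distrib] using this
    rw [Pi.smul_apply, smul_eq_mul]
    field_simp
    linear_combination h2

/-- linear independence of powers, in the form used here -/
lemma coeff_eq_zero {ι : Type} [DecidableEq ι] (s : Finset ι) (m : ι → Fin (n + 1) → ℂ)
    (m0 : Fin (n + 1) → ℂ) (hm0 : m0 ≠ 0) (h : ∀ k ∈ s, ∀ c : ℂ, m0 ≠ c • m k) (d : ℕ)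
    (hd : s.card ≤ d) (c0 : ℂ) (c : ι → ℂ)
    (hrel : C c0 * linearForm m0 ^ d + ∑ k ∈ s, C (c k) * linearForm (m k) ^ d = 0) : c0 = 0 := by
  induction s using Finset.induction_on generalizing d c0 c with
  | empty =>
    rw [Finset.sum_empty, add_zero] at hrel
    have := (mul_eq_zero.1 hrel).resolve_right (pow_ne_zero _ (linearForm_ne_zero hm0))
    simpa using this
  | insert k s hk ih =>
    rw [Finset.card_insert_of_notMem hk] at hd
    obtain ⟨d, rfl⟩ : ∃ d', d = d' + 1 := ⟨d - 1, by omega⟩
    obtain ⟨v, hv1, hv2⟩ := exists_sep (h k (Finset.mem_insert_self _ _))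
    have key : ∀ (a : ℂ) (b : Fin (n + 1) → ℂ), dv v (C a * linearForm b ^ (d + 1)) =
        C ((d + 1 : ℂ) * (a * pr b v)) * linearForm b ^ d := by
      intro a b
      have : C a * linearForm b ^ (d + 1) = a • linearForm b ^ (d + 1) := by
        rw [smul_eq_C_mul]
      rw [this, Derivation.map_smul, Derivation.leibniz_pow, dv_linearForm, smul_eq_C_mul]
      simp only [Nat.add_sub_cancel, smul_eq_mul, nsmul_eq_mul, map_mul, map_add, map_one,
        Nat.cast_add, Nat.cast_one, map_natCast]
      ring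
    have h1 := congrArg (dv v) hrel
    rw [Finset.sum_insert hk, map_add, map_add, map_zero, map_sum] at h1
    simp only [key] at h1
    rw [hv1, mul_zero, mul_zero, map_zero, zero_mul, zero_add] at h1
    have h2 := ih (fun j hj => h j (Finset.mem_insert_of_mem hj)) d (by omega)
      ((d + 1 : ℂ) * (c0 * pr m0 v)) (fun k => (d + 1 : ℂ) * (c k * pr (m k) v)) h1
    have h3 : (d + 1 : ℂ) ≠ 0 := by exact_mod_cast Nat.succ_ne_zero d
    exact (mul_eq_zero.1 ((mul_eq_zero.1 h2).resolve_left h3)).resolve_right hv2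

/-- the substitution that restricts to the hyperplane `l = 0` along `e` -/
noncomputable def sg (l e : Fin (n + 1) → ℂ) :
    MvPolynomial (Fin (n + 1)) ℂ →ₐ[ℂ] MvPolynomial (Fin (n + 1)) ℂ :=
  aeval fun j => X j - C (e j) * linearForm l

lemma linearForm_sub_smul (m l : Fin (n + 1) → ℂ) (c : ℂ) :
    linearForm (m - c • l) = linearForm m - C c * linearForm l := by
  simp only [linearForm, Pi.sub_apply, Pi.smul_apply, smul_eq_mul, map_sub, map_mul,
    sub_mul, Finset.sum_sub_distrib, Finset.mul_sum, mul_assoc]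

lemma sg_linearForm (l e m : Fin (n + 1) → ℂ) :
    sg l e (linearForm m) = linearForm (m - pr m e • l) := by
  rw [linearForm_sub_smul]
  conv_lhs => rw [linearForm, map_sum]
  have : ∀ j, sg l e (C (m j) * X j) = C (m j) * X j - C (m j * e j) * linearForm l := by
    intro j
    rw [map_mul]
    simp only [sg, aeval_X]
    rw [← algebraMap_eq, AlgHom.commutes, algebraMap_eq, map_mul]
    ring
  simp only [this, Finset.sum_sub_distrib]
  rw [← Finset.sum_mul, ← map_sum, linearForm]
  rfl

/-- each hyperplane lies on a line through a given point of the decomposition -/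
lemma mem_span_pair {d r : ℕ} (l : Fin d → Fin (n + 1) → ℂ) (m : Fin r → Fin (n + 1) → ℂ)
    (hF : ∏ i, linearForm (l i) = ∑ j, linearForm (m j) ^ d)
    (hm : ∀ j k, j ≠ k → ∀ c : ℂ, m j ≠ c • m k) (hrd : r ≤ d + 1) (i : Fin d) (hi : l i ≠ 0)
    (j : Fin r) (hj : ∀ c : ℂ, m j ≠ c • l i) :
    ∃ k, k ≠ j ∧ ∃ a b : ℂ, l i = a • m j + b • m k := by
  by_contra hcon
  push Not at hcon
  obtain ⟨p, hp⟩ : ∃ p, l i p ≠ 0 := by
    by_contra hp
    push Not at hp
    exact hi (funext hp)
  set e : Fin (n + 1) → ℂ := Pi.single p (l i p)⁻¹ with he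
  have hle : pr (l i) e = 1 := by
    simp [pr, he, Pi.single_apply, hp]
  have h1 := congrArg (sg (l i) e) hF
  rw [map_prod, map_sum] at h1
  rw [Finset.prod_eq_zero (Finset.mem_univ i)] at h1
  swap
  · rw [sg_linearForm, hle, one_smul, sub_self]
    simp [linearForm]
  simp only [map_pow, sg_linearForm] at h1
  rw [← Finset.add_sum_erase _ _ (Finset.mem_univ j)] at h1
  have h2 := coeff_eq_zero (Finset.univ.erase j) (fun k => m k - pr (m k) e • l i)
    (m j - pr (m j) e • l i) ?_ ?_ d ?_ 1 (fun _ => 1) ?_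
  · exact one_ne_zero h2
  · intro h0
    exact hj (pr (m j) e) (sub_eq_zero.1 h0)
  · intro k hk c hc
    have hkj := Finset.ne_of_mem_erase hk
    have e1 : (pr (m j) e - c * pr (m k) e) • l i = m j - c • m k := by
      calc (pr (m j) e - c * pr (m k) e) • l i =
          (m j - c • m k) - ((m j - pr (m j) e • l i) - c • (m k - pr (m k) e • l i)) := by
            module
        _ = m j - c • m k := by rw [hc, sub_self, sub_zero]
    by_cases h0 : pr (m j) e - c * pr (m k) e = 0
    · rw [h0, zero_smul] at e1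
      exact hm j k hkj.symm c (sub_eq_zero.1 e1.symm)
    · refine hcon k hkj (pr (m j) e - c * pr (m k) e)⁻¹
        (-((pr (m j) e - c * pr (m k) e)⁻¹ * c)) ?_
      have e2 : l i = (pr (m j) e - c * pr (m k) e)⁻¹ • (m j - c • m k) := by
        rw [← e1, smul_smul, inv_mul_cancel₀ h0, one_smul]
      rw [e2]
      module
  · rw [Finset.card_erase_of_mem (Finset.mem_univ j), Finset.card_univ, Fintype.card_fin]
    omega
  · simp only [map_one, one_mul]
    exact h1.symm

/-- at most two of the hyperplanes lie in a plane -/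
lemma not_three {d : ℕ} (hn : 2 ≤ n) {l : Fin d → Fin (n + 1) → ℂ} (hl : IsGenericArrangement l)
    (i1 i2 i3 : Fin d) (h12 : i1 ≠ i2) (h13 : i1 ≠ i3) (h23 : i2 ≠ i3) (a b : Fin (n + 1) → ℂ)
    (h1 : l i1 ∈ Submodule.span ℂ {a, b}) (h2 : l i2 ∈ Submodule.span ℂ {a, b})
    (h3 : l i3 ∈ Submodule.span ℂ {a, b}) : False := by
  classical
  obtain ⟨s, hs, hsc⟩ := Finset.exists_superset_card_eq (s := {i1, i2, i3}) (n := n + 1)
    (by rw [Finset.card_eq_three.2 ⟨i1, i2, i3, h12, h13, h23, rfl⟩]; omega)
    (by rw [Fintype.card_fin]; exact hl.1)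
  have hli := hl.2 s hsc
  have hmem : ∀ i ∈ ({i1, i2, i3} : Finset (Fin d)), i ∈ s := fun i hi => hs hi
  let f : Fin 3 → s := ![⟨i1, hmem _ (by simp)⟩, ⟨i2, hmem _ (by simp)⟩, ⟨i3, hmem _ (by simp)⟩]
  have hf : Function.Injective f := by
    intro x y hxy
    fin_cases x <;> fin_cases y <;> simp [f] at hxy ⊢ <;>
      first | exact absurd hxy h12 | exact absurd hxy h13 | exact absurd hxy h23 |
        exact absurd hxy.symm h12 | exact absurd hxy.symm h13 | exact absurd hxy.symm h23
  have h4 := hli.comp f hf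
  have h5 : Set.range ((fun i : s => l i) ∘ f) ⊆ Submodule.span ℂ {a, b} := by
    rintro _ ⟨x, rfl⟩
    fin_cases x
    · exact h1
    · exact h2
    · exact h3
  have h6 := finrank_span_eq_card h4
  have h7 : Module.finrank ℂ (Submodule.span ℂ (Set.range ((fun i : s => l i) ∘ f))) ≤
      Module.finrank ℂ (Submodule.span ℂ {a, b}) :=
    Submodule.finrank_mono (Submodule.span_le.2 h5)
  have h8 : Module.finrank ℂ (Submodule.span ℂ {a, b}) ≤ 2 := by
    have := finrank_span_finset_le_card (R := ℂ) ({a, b} : Finset (Fin (n + 1) → ℂ))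
    rw [Set.finrank] at this
    have h9 : ((({a, b} : Finset (Fin (n + 1) → ℂ)) : Set (Fin (n + 1) → ℂ))) = {a, b} := by simp
    rw [h9] at this
    exact this.trans (Finset.card_le_two)
  rw [Fintype.card_fin] at h6
  omega

/-- no vector of the arrangement is a multiple of another one -/
lemma not_prop {d : ℕ} (hn : 2 ≤ n) {l : Fin d → Fin (n + 1) → ℂ} (hl : IsGenericArrangement l)
    (i : Fin d) : l i ≠ 0 := by
  intro h0
  obtain ⟨i2, h2⟩ : ∃ i2 : Fin d, i2 ≠ i := by
    have : 2 ≤ d := by have := hl.1; omega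
    by_cases h : i = ⟨0, by omega⟩
    · exact ⟨⟨1, by omega⟩, by rw [h]; simp⟩
    · exact ⟨⟨0, by omega⟩, fun e => h e.symm⟩
  obtain ⟨i3, h3, h3'⟩ : ∃ i3 : Fin d, i3 ≠ i ∧ i3 ≠ i2 := by
    have h3d : 3 ≤ d := by have := hl.1; omega
    by_contra hcon
    push Not at hcon
    have : (Finset.univ : Finset (Fin d)) ⊆ {i, i2} := by
      intro x _
      rw [Finset.mem_insert, Finset.mem_singleton]
      by_cases hx : x = i
      · exact Or.inl hx
      · exact Or.inr (hcon x hx)
    have := Finset.card_le_card this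
    rw [Finset.card_univ, Fintype.card_fin] at this
    have := this.trans Finset.card_le_two
    omega
  refine not_three hn hl i i2 i3 h2.symm h3.symm h3'.symm (l i2) (l i3) ?_ ?_ ?_
  · rw [h0]; exact Submodule.zero_mem _
  · exact Submodule.subset_span (by simp)
  · exact Submodule.subset_span (by simp)

/-- **The bound.** If a generic arrangement of `d` hyperplanes in `ℙⁿ`, `n ≥ 2`, is a sum of `r`
pairwise non-proportional powers, then `d ≤ 2 (r - 1)` or `d < r`. -/
theorem size_le {d r : ℕ} (hn : 2 ≤ n) (l : Fin d → Fin (n + 1) → ℂ)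
    (hl : IsGenericArrangement l) (m : Fin r → Fin (n + 1) → ℂ)
    (hF : ∏ i, linearForm (l i) = ∑ j, linearForm (m j) ^ d)
    (hm : ∀ j k, j ≠ k → ∀ c : ℂ, m j ≠ c • m k) (hrd : r ≤ d + 1) : d ≤ 2 * r := by
  classical
  have hne : ∏ i, linearForm (l i) ≠ 0 :=
    Finset.prod_ne_zero_iff.2 fun i _ => linearForm_ne_zero (not_prop hn hl i)
  obtain ⟨j⟩ : Nonempty (Fin r) := by
    by_contra hemp
    rw [not_nonempty_iff] at hemp
    apply hne
    rw [hF, Finset.univ_eq_empty, Finset.sum_empty]
  -- the indices of hyperplanes proportional to `m j`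
  have hT : ∀ i, (∃ c : ℂ, m j = c • l i) ∨ ∃ k, k ≠ j ∧ ∃ a b : ℂ, l i = a • m j + b • m k := by
    intro i
    by_cases h : ∃ c : ℂ, m j = c • l i
    · exact Or.inl h
    · push Not at h
      exact Or.inr (mem_span_pair l m hF hm hrd i (not_prop hn hl i) j h)
  -- every index is sent to some `k`, with `k = j` for the proportional ones
  have hk : ∀ i, ∃ k, l i ∈ Submodule.span ℂ {m j, m k} ∨ (k = j ∧ ∃ c : ℂ, m j = c • l i) := by
    intro i
    rcases hT i with h | ⟨k, _, a, b, h⟩
    · exact ⟨j, Or.inr ⟨rfl, h⟩⟩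
    · refine ⟨k, Or.inl ?_⟩
      rw [h]
      exact Submodule.mem_span_pair.2 ⟨a, b, rfl⟩
  by_cases hj0 : m j = 0
  · -- impossible unless there is just one summand
    by_cases hr1 : ∃ k, k ≠ j
    · obtain ⟨k, hk'⟩ := hr1
      exact absurd (by rw [hj0, zero_smul]) (hm j k hk'.symm 0)
    · push Not at hr1
      exfalso
      apply hne
      rw [hF]
      apply Finset.sum_eq_zero
      intro x _
      rw [hr1 x, hj0]
      have : linearForm (0 : Fin (n + 1) → ℂ) = 0 := by simp [linearForm]
      rw [this]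
      exact zero_pow (by have := hl.1; omega)
  have hspan : ∀ i, ∃ k, l i ∈ Submodule.span ℂ {m j, m k} := by
    intro i
    obtain ⟨k, h | ⟨_, c, hc⟩⟩ := hk i
    · exact ⟨k, h⟩
    · refine ⟨k, ?_⟩
      have hc0 : c ≠ 0 := by
        rintro rfl
        rw [zero_smul] at hc
        exact hj0 hc
      have : l i = c⁻¹ • m j := by rw [hc, smul_smul, inv_mul_cancel₀ hc0, one_smul]
      rw [this]
      exact Submodule.smul_mem _ _ (Submodule.subset_span (by simp))
  choose f hf using hspan
  have hcard : ∀ k, (Finset.univ.filter fun i => f i = k).card ≤ 2 := by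
    intro k
    by_contra hc
    push Not at hc
    obtain ⟨i1, i2, i3, h1, h2, h3, h12, h13, h23⟩ := Finset.two_lt_card_iff.1 hc
    simp only [Finset.mem_filter, Finset.mem_univ, true_and] at h1 h2 h3
    refine not_three hn hl i1 i2 i3 h12 h13 h23 (m j) (m k) ?_ ?_ ?_
    · have := hf i1; rwa [h1] at this
    · have := hf i2; rwa [h2] at this
    · have := hf i3; rwa [h3] at this
  have h1 := Finset.card_eq_sum_card_fiberwise (s := (Finset.univ : Finset (Fin d)))
    (t := (Finset.univ : Finset (Fin r))) (f := f) (fun x _ => Finset.mem_univ _)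
  rw [Finset.card_univ, Fintype.card_fin] at h1
  calc d = ∑ k, (Finset.univ.filter fun i => f i = k).card := h1
    _ ≤ ∑ _k : Fin r, 2 := Finset.sum_le_sum fun k _ => hcard k
    _ = 2 * r := by simp [mul_comm]

/-- in a shortest decomposition the summands are pairwise non-proportional -/
lemma nonprop_of_least {F : MvPolynomial (Fin (n + 1)) ℂ} {d r : ℕ} (hd : 0 < d)
    (h : HasWaringRank F d r) (m : Fin r → Fin (n + 1) → ℂ)
    (hF : F = ∑ j, linearForm (m j) ^ d) (j k : Fin r) (hjk : j ≠ k) (c : ℂ) :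
    m j ≠ c • m k := by
  classical
  intro hc
  obtain ⟨r, rfl⟩ : ∃ r', r = r' + 1 := ⟨r - 1, by have := j.2; omega⟩
  -- merge the summands `j` and `k`
  obtain ⟨t, ht⟩ := IsAlgClosed.exists_pow_nat_eq (c ^ d + 1) hd
  have hlin : ∀ (a : ℂ) (v : Fin (n + 1) → ℂ), linearForm (a • v) = C a * linearForm v := by
    intro a v
    simp only [linearForm, Pi.smul_apply, smul_eq_mul, map_mul, mul_assoc, Finset.mul_sum]
  let m' : Fin (r + 1) → Fin (n + 1) → ℂ := Function.update m k (t • m k)
  have h2 : r ∈ {r | IsSumOfPowers F d r} := by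
    refine ⟨fun i => m' (j.succAbove i), ?_⟩
    have e1 : ∑ i, linearForm (m' i) ^ d =
        linearForm (m' j) ^ d + ∑ i, linearForm (m' (j.succAbove i)) ^ d :=
      Fin.sum_univ_succAbove _ j
    have e2 : ∑ i, linearForm (m' i) ^ d = F + linearForm (m j) ^ d := by
      have e3 : ∀ i, linearForm (m' i) ^ d = linearForm (m i) ^ d +
          if i = k then linearForm (m j) ^ d else 0 := by
        intro i
        by_cases hi : i = k
        · subst hi
          rw [if_pos rfl]
          simp only [m', Function.update_self]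
          rw [hlin, hc, hlin, mul_pow, mul_pow, ← map_pow, ← map_pow, ht, map_add, map_one]
          ring
        · rw [if_neg hi, add_zero]
          simp only [m', Function.update_of_ne hi]
      simp only [e3, Finset.sum_add_distrib, Finset.sum_ite_eq', Finset.mem_univ, if_true, hF]
    have e4 : m' j = m j := by simp only [m', Function.update_of_ne hjk]
    rw [e2, e4] at e1
    linear_combination e1
  have := h.2 h2
  omega

theorem not_P (hn : 2 ≤ n) : ¬ P n := by
  intro h
  obtain ⟨d, hd, l, hl, hr⟩ := h (2 * Nat.choose (2 * n) n + 1)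
  obtain ⟨m, hm⟩ := hr.1
  have hd0 : 0 < d := by omega
  have := size_le hn l hl m hm (nonprop_of_least hd0 hr m hm) (by omega)
  omega

end Pool.Agent.Q39.WR
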