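import Mathlib

set_option autoImplicit false

/-!
# Waring rank of generic arrangements: definitions
-/

namespace Pool.Agent.Q39.WR

open MvPolynomial

variable {n : ℕ}

/-- The linear form `∑ j, a j * x_j`. -/
noncomputable def linearForm (a : Fin (n + 1) → ℂ) : MvPolynomial (Fin (n + 1)) ℂ :=
  ∑ j, C (a j) * X j

/-- The linear forms with coefficient vectors `l i`, `i < d`, are a generic arrangement of `d`
hyperplanes in `ℙⁿ`: `d ≥ n + 1` and any `n + 1` of the forms are linearly independent. -/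
def IsGenericArrangement {d : ℕ} (l : Fin d → Fin (n + 1) → ℂ) : Prop :=
  n + 1 ≤ d ∧ ∀ s : Finset (Fin d), s.card = n + 1 → LinearIndependent ℂ fun i : s => l i

/-- `F` is a sum of `r` `d`-th powers of linear forms. -/
def IsSumOfPowers (F : MvPolynomial (Fin (n + 1)) ℂ) (d r : ℕ) : Prop :=
  ∃ m : Fin r → Fin (n + 1) → ℂ, F = ∑ j, linearForm (m j) ^ d

/-- `r` is the Waring rank of the form `F` of degree `d`. -/
def HasWaringRank (F : MvPolynomial (Fin (n + 1)) ℂ) (d r : ℕ) : Prop :=
  IsLeast {r | IsSumOfPowers F d r} r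

/-- There are generic arrangements in `ℙⁿ` of arbitrarily large size with Waring rank
`(2n choose n)`. -/
def P (n : ℕ) : Prop :=
  ∀ D : ℕ, ∃ d, D ≤ d ∧ ∃ l : Fin d → Fin (n + 1) → ℂ,
    IsGenericArrangement l ∧ HasWaringRank (∏ i, linearForm (l i)) d (Nat.choose (2 * n) n)

end Pool.Agent.Q39.WR
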